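import Mathlib

/-!
# GS-9: the normal closure of `(τ, a)` in `L × A`, `L` perfect, `A` cyclic (MP_63a9db_ag)
-/

set_option autoImplicit false

open scoped commutatorElement

namespace Pool.Agent.Helper54.GS

/-- GS-9 -/
theorem normalClosure_prod_zpowers {L A : Type} [Group L] [Group A] (hL : commutator L = ⊤)
    (τ : L) (hτ : Subgroup.normalClosure ({τ} : Set L) = ⊤) (a : A)
    (ha : Subgroup.zpowers a = ⊤) :
    Subgroup.normalClosure ({(τ, a)} : Set (L × A)) = ⊤ := by
  set M := Subgroup.normalClosure ({(τ, a)} : Set (L × A)) with hM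
  have hMn : M.Normal := Subgroup.normalClosure_normal
  have hmem : (τ, a) ∈ M := Subgroup.subset_normalClosure rfl
  let M1 : Subgroup L := M.comap (MonoidHom.inl L A)
  have hM1n : M1.Normal := by
    constructor
    intro x hx g
    change (g * x * g⁻¹, (1:A)) ∈ M
    have := hMn.conj_mem (x, 1) hx (g, 1)
    simpa using this
  have hc : ∀ g : L, g * τ * g⁻¹ * τ⁻¹ ∈ M1 := by
    intro g
    change (g * τ * g⁻¹ * τ⁻¹, (1:A)) ∈ M
    have h1 := hMn.conj_mem (τ, a) hmem (g, 1)
    have h2 := M.mul_mem h1 (M.inv_mem hmem)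
    simpa using h2
  have h1 : Subgroup.normalClosure {τ} ≤
      (Subgroup.center (L ⧸ M1)).comap (QuotientGroup.mk' M1) := by
    apply Subgroup.normalClosure_le_normal
    intro y hy
    rw [Set.mem_singleton_iff] at hy
    subst hy
    rw [SetLike.mem_coe, Subgroup.mem_comap, Subgroup.mem_center_iff]
    intro q
    obtain ⟨g, rfl⟩ := QuotientGroup.mk'_surjective M1 q
    have h2 := (QuotientGroup.eq_one_iff (N := M1) _).2 (hc g)
    have h3 : (QuotientGroup.mk' M1) (g * y * g⁻¹ * y⁻¹) = 1 := h2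
    rw [map_mul, map_mul, map_mul, map_inv, map_inv] at h3
    rw [mul_inv_eq_one, mul_inv_eq_iff_eq_mul] at h3
    exact h3
  have h2 : commutator L ≤ M1 := by
    rw [commutator_def, Subgroup.commutator_le]
    intro x _ y _
    have hx : x ∈ (Subgroup.center (L ⧸ M1)).comap (QuotientGroup.mk' M1) :=
      h1 (by rw [hτ]; trivial)
    rw [Subgroup.mem_comap, Subgroup.mem_center_iff] at hx
    rw [← QuotientGroup.eq_one_iff]
    change (QuotientGroup.mk' M1) ⁅x, y⁆ = 1
    rw [commutatorElement_def, map_mul, map_mul, map_mul, map_inv, map_inv]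
    rw [mul_inv_eq_one, mul_inv_eq_iff_eq_mul]
    exact (hx _).symm
  have h3 : ∀ x : L, (x, (1 : A)) ∈ M := fun x => h2 (by rw [hL]; trivial)
  rw [eq_top_iff]
  rintro ⟨x, b⟩ -
  have hb : b ∈ Subgroup.zpowers a := by rw [ha]; trivial
  obtain ⟨n, rfl⟩ := Subgroup.mem_zpowers_iff.1 hb
  have h4 : (x, a ^ n) = (x * (τ ^ n)⁻¹, (1 : A)) * (τ, a) ^ n := by
    simp
  rw [h4]
  exact M.mul_mem (h3 _) (M.zpow_mem hmem n)

end Pool.Agent.Helper54.GS
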